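import Pool.Agent.Lib.MP_9750df_co.TMain

/-!
MP_9750df_co, Q1: the difference of the outerthickness and the uncrossed number is unbounded.
-/

set_option autoImplicit false

namespace Pool.Agent.Results.MP_9750df_co.UnboundedGap

open OTh

/-- For every `K` there is a finite graph `G` which has an uncrossed collection and whose outerthickness is at least its
uncrossed number plus `K`. -/
theorem result (K : ℕ) : ∃ (V : Type) (_ : Fintype V) (G : SimpleGraph V),
    (∃ c, UncrossedCollection G c) ∧ uncrossedNumber G + K ≤ outerthickness G :=
  gap K

end Pool.Agent.Results.MP_9750df_co.UnboundedGap
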